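import Pool.Agent.KT3.StmtsA

/-!
# Row PHC of the squad KT3: continuity of the support functionals
-/

set_option autoImplicit false

open Matrix Filter Topology

namespace Pool.Agent.KT3.H24

open Pool.Agent.PFS Pool.Agent.PFJ Pool.Agent.NBT

/-- the standard vectors -/
def ev {n : ℕ} (k : Fin n) : V n := fun j => if k = j then 1 else 0

theorem rep {n : ℕ} (ψ : V n →ₗ[ℝ] ℝ) (z : V n) : ψ z = ∑ k, z k * ψ (ev k) :=
  LinearMap.pi_apply_eq_sum_univ ψ z

/-- the functional with given coefficients -/
def fnl {n : ℕ} (b : V n) : V n →ₗ[ℝ] ℝ where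
  toFun z := ∑ k, z k * b k
  map_add' z z' := by
    rw [← Finset.sum_add_distrib]
    refine Finset.sum_congr rfl fun k _ => ?_
    rw [Pi.add_apply, add_mul]
  map_smul' c z := by
    rw [RingHom.id_apply, smul_eq_mul, Finset.mul_sum]
    refine Finset.sum_congr rfl fun k _ => ?_
    rw [Pi.smul_apply, smul_eq_mul, mul_assoc]

theorem fnl_apply {n : ℕ} (b z : V n) : fnl b z = ∑ k, z k * b k := rfl

theorem fnl_ev {n : ℕ} (b : V n) (k : Fin n) : fnl b (ev k) = b k := by
  rw [fnl_apply, Finset.sum_eq_single k]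
  · unfold ev
    rw [if_pos rfl, one_mul]
  · intro j _ hj
    unfold ev
    rw [if_neg (Ne.symm hj), zero_mul]
  · intro hk
    exact absurd (Finset.mem_univ k) hk

theorem tends {n : ℕ} {ι : Type} {l : Filter ι} {a z : ι → V n} {b y : V n}
    (ha : Tendsto a l (𝓝 b)) (hz : Tendsto z l (𝓝 y)) :
    Tendsto (fun m => ∑ k, z m k * a m k) l (𝓝 (∑ k, y k * b k)) :=
  tendsto_finsetSum _ fun k _ => ((tendsto_pi_nhds.1 hz) k).mul ((tendsto_pi_nhds.1 ha) k)

/-- row PHC -/
theorem phc (hU : PhuStmt) : PhcStmt := by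
  intro n C Γ K h x w hx hw hlim i φm φ ym y hφm hφ hy
  have hC : PCone C := h.toCC.toPCone
  obtain ⟨a, ha⟩ : ∃ a : ℕ → V n, ∀ m k, a m k = φm m (ev k) := ⟨fun m k => φm m (ev k), fun _ _ => rfl⟩
  have hφa : ∀ m z, φm m z = ∑ k, z k * a m k := by
    intro m z
    rw [rep (φm m) z]
    exact Finset.sum_congr rfl fun k _ => by rw [ha]
  -- boundedness
  have hb1 : ∀ z : V n, ∃ M : ℝ, ∀ᶠ m in atTop, |φm m z| ≤ M := by
    intro z
    obtain ⟨M, hM, h1, h2⟩ := absorb_two hC hw.1.sum_mem z
    have ht : Tendsto (fun m => ∑ j, x m j) atTop (𝓝 (∑ j, w j)) :=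
      tendsto_finsetSum _ fun j _ => hlim j
    have t1 := ((ht.const_smul M).sub_const z).eventually (hC.isOpen.mem_nhds h1)
    have t2 := ((ht.const_smul M).add_const z).eventually (hC.isOpen.mem_nhds h2)
    refine ⟨M, (t1.and t2).mono fun m hm => ?_⟩
    have s : φm m (∑ j, x m j) = 1 := by
      rw [map_sum, Finset.sum_eq_single i]
      · exact (hφm m).one
      · intro j _ hj
        exact (hφm m).zero j hj
      · intro hh
        exact absurd (Finset.mem_univ i) hh
    have p1 := (hφm m).pos _ (subset_closure hm.1)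
    have p2 := (hφm m).pos _ (subset_closure hm.2)
    rw [map_sub, map_smul, s, smul_eq_mul, mul_one] at p1
    rw [map_add, map_smul, s, smul_eq_mul, mul_one] at p2
    rw [abs_le]
    constructor <;> linarith
  choose M hM using fun k : Fin n => hb1 (ev k)
  have hev : ∀ᶠ m in atTop, a m ∈ Metric.closedBall (0 : V n) (∑ k, |M k|) := by
    refine (Filter.eventually_all.2 hM).mono fun m hm => ?_
    rw [mem_closedBall_zero_iff, pi_norm_le_iff_of_nonneg
      (Finset.sum_nonneg fun k _ => abs_nonneg _)]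
    intro k
    rw [ha, Real.norm_eq_abs]
    exact (hm k).trans ((le_abs_self _).trans
      (Finset.single_le_sum (f := fun k => |M k|) (fun k _ => abs_nonneg _) (Finset.mem_univ k)))
  -- convergence of the coefficients
  have hlima : Tendsto a atTop (𝓝 (fun k => φ (ev k))) := by
    refine tendsto_of_subseq_tendsto fun ns hns => ?_
    obtain ⟨b, -, ms, hms, hb⟩ := tendsto_subseq_of_frequently_bounded
      (Metric.isBounded_closedBall (x := (0 : V n)) (r := ∑ k, |M k|)) (x := a ∘ ns)
      ((hns.eventually hev).frequently)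
    refine ⟨ms, ?_⟩
    have hcomp : Tendsto (fun m => ns (ms m)) atTop atTop := hns.comp hms.tendsto_atTop
    have hb' : Tendsto (fun m => a (ns (ms m))) atTop (𝓝 b) := hb
    have key : ∀ (z : ℕ → V n) (z' : V n), Tendsto z atTop (𝓝 z') →
        Tendsto (fun m => φm (ns (ms m)) (z m)) atTop (𝓝 (fnl b z')) := by
      intro z z' hz
      have h1 := tends hb' hz
      rw [← fnl_apply] at h1
      refine h1.congr fun m => ?_
      rw [hφa]
    have hpos : ∀ z ∈ closure C, 0 ≤ fnl b z := by
      intro z hz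
      exact ge_of_tendsto' (key (fun _ => z) z tendsto_const_nhds) fun m => (hφm _).pos z hz
    have hval : ∀ j, Tendsto (fun m => φm (ns (ms m)) (x (ns (ms m)) j)) atTop
        (𝓝 (fnl b (w j))) := fun j => key _ _ ((hlim j).comp hcomp)
    have h1 : fnl b (w i) = 1 := by
      refine tendsto_nhds_unique (hval i) ?_
      refine tendsto_const_nhds.congr fun m => ?_
      rw [(hφm _).one]
    have h0 : ∀ j, j ≠ i → fnl b (w j) = 0 := by
      intro j hj
      refine tendsto_nhds_unique (hval j) ?_
      refine tendsto_const_nhds.congr fun m => ?_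
      rw [(hφm _).zero j hj]
    have heq := (hU n C Γ K h w hw i φ hφ).1 (fnl b) hpos h0
    have hbe : b = fun k => φ (ev k) := by
      funext k
      have h2 := heq (ev k)
      rw [h1, one_mul, fnl_ev] at h2
      exact h2
    rw [← hbe]
    exact hb'
  have hfin := tends hlima hy
  rw [← rep φ y] at hfin
  refine hfin.congr fun m => ?_
  rw [hφa]

end Pool.Agent.KT3.H24
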